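import Pool.Agent.V1198.IndLim

/-!
# MP_566259_an, Q1: every separable Banach lattice is an inductive limit of semiprojective ones
-/

set_option autoImplicit false

namespace Pool.Agent.Results.MP_566259_an.AllLimits

open Pool.Agent.V1198.BL Pool.Agent.V1198.YS

/-- **Theorem.** Every separable Banach lattice is the inductive limit of a sequence of
semiprojective Banach lattices with contractive lattice homomorphisms as connecting maps. -/
theorem result : ∀ E : BLat, TopologicalSpace.SeparableSpace E →
    ∃ (A : ℕ → BLat) (φ : ∀ n, A n →L[ℝ] A (n + 1)), (∀ n, Semiprojective (A n)) ∧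
      (∀ n, IsLatHom (φ n)) ∧ (∀ n, ‖φ n‖ ≤ 1) ∧ IsIndLim A φ E :=
  exists_indLim

end Pool.Agent.Results.MP_566259_an.AllLimits
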